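import Pool.Agent.H223R3.Tree.Blocks

set_option autoImplicit false

namespace Pool.Agent.Results.MP_8c28bb_co.CliqueBound

/-- For every tree `T` on `k ≥ 2` vertices and every `r ≥ 1`, every `T`-free graph on `n`
vertices has at most `C(k-1,r) n / (k-1)` cliques with `r` vertices, and if `k - 1` divides `n`
this is attained: `ex(n, K_r, T) = (n / (k-1)) C(k-1,r)`. -/
theorem result (k : ℕ) (hk : 2 ≤ k) (T : SimpleGraph (Fin k)) (hT : T.IsTree) (r : ℕ)
    (hr : 1 ≤ r) (n : ℕ) :
    (∀ G : SimpleGraph (Fin n), T.Free G →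
      (({s : Finset (Fin n) | G.IsNClique r s}.ncard : ℕ) : ℝ) ≤
        ((k - 1).choose r : ℝ) * n / ((k : ℝ) - 1)) ∧
    ((k - 1) ∣ n → ∃ G : SimpleGraph (Fin n), T.Free G ∧
      {s : Finset (Fin n) | G.IsNClique r s}.ncard = n / (k - 1) * (k - 1).choose r) := by
  constructor
  · intro G hG
    have h := H223R3.Tree.upper hk T hT hr G hG
    have hk1 : (0 : ℝ) < (k : ℝ) - 1 := by
      have : (2 : ℝ) ≤ k := by exact_mod_cast hk
      linarith
    rw [le_div_iff₀ hk1]
    have h2 : (((k - 1) * {s : Finset (Fin n) | G.IsNClique r s}.ncard : ℕ) : ℝ) ≤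
        (((k - 1).choose r * n : ℕ) : ℝ) := by exact_mod_cast h
    push_cast [Nat.cast_sub (by omega : 1 ≤ k)] at h2
    linarith
  · rintro ⟨a, rfl⟩
    have hk1 : 0 < k - 1 := by omega
    rw [Nat.mul_div_cancel_left a hk1, mul_comm (k - 1) a]
    refine ⟨H223R3.Tree.blocks (a * (k - 1)) (k - 1), H223R3.Tree.blocks_free hk T hT, ?_⟩
    apply le_antisymm
    · have h := H223R3.Tree.upper hk T hT hr _
        (H223R3.Tree.blocks_free (n := a * (k - 1)) hk T hT)
      have h2 : (k - 1) * {s : Finset (Fin (a * (k - 1))) |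
          (H223R3.Tree.blocks (a * (k - 1)) (k - 1)).IsNClique r s}.ncard ≤
          (k - 1) * (a * (k - 1).choose r) := by
        calc _ ≤ _ := h
          _ = _ := by ring
      exact Nat.le_of_mul_le_mul_left h2 hk1
    · exact H223R3.Tree.blocks_count a (k - 1) r hk1 hr

end Pool.Agent.Results.MP_8c28bb_co.CliqueBound
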